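import Mathlib
import Pool.Agent.Lib.MP_c6cae0_co.h37.CS3
import Pool.Agent.Lib.MP_c6cae0_co.PB.U2

section

/-!
MP_c6cae0_co, `A + A` and `A + A + A`: moments of the representation function and sifting, in a
finite group of exponent two.
-/

set_option autoImplicit false

namespace PT

open Finset

variable {G : Type*} [AddCommGroup G] [Fintype G] [DecidableEq G]

omit [DecidableEq G] in
/-- the basic identity -/
theorem sift_id (h2 : ∀ x : G, x + x = 0) (f φ : G → ℝ) (k : ℕ) :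
    ∑ t : Fin k → G, ∑ u : G, ∑ u' : G, φ (u + u') * (∏ i, f (u + t i)) * ∏ i, f (u' + t i) =
      Fintype.card G * ∑ x : G, φ x * (∑ y : G, f y * f (y + x)) ^ k := by
  rw [sum_comm]
  have h : ∀ u : G, ∑ t : Fin k → G, ∑ u' : G,
      φ (u + u') * (∏ i, f (u + t i)) * ∏ i, f (u' + t i) =
      ∑ x : G, φ x * (∑ y : G, f y * f (y + x)) ^ k := by
    intro u
    have e1 : ∑ t : Fin k → G, ∑ u' : G,
        φ (u + u') * (∏ i, f (u + t i)) * ∏ i, f (u' + t i) =
        ∑ y : Fin k → G, ∑ x : G, φ x * (∏ i, f (y i)) * ∏ i, f (y i + x) := by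
      refine Fintype.sum_equiv (Equiv.addLeft (fun _ => u)) _ _ fun t => ?_
      refine Fintype.sum_equiv (Equiv.addLeft u) _ _ fun u' => ?_
      have e2 : ∀ i, (Equiv.addLeft (fun _ : Fin k => u)) t i = u + t i := fun i => rfl
      have e3 : (Equiv.addLeft u) u' = u + u' := rfl
      rw [e3]
      simp only [e2]
      congr 1
      refine prod_congr rfl fun i _ => ?_
      congr 1
      calc u' + t i = u + u + (u' + t i) := by rw [h2, zero_add]
        _ = _ := by abel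
    rw [e1, sum_comm]
    refine sum_congr rfl fun x _ => ?_
    rw [Fintype.sum_pow, mul_sum]
    refine sum_congr rfl fun y _ => ?_
    rw [prod_mul_distrib]
    ring
  rw [sum_congr rfl fun u _ => h u, sum_const, card_univ, nsmul_eq_mul]

omit [DecidableEq G] in
/-- the moments of a self-convolution are nonnegative -/
theorem moment_nonneg (h2 : ∀ x : G, x + x = 0) (f : G → ℝ) (k : ℕ) :
    0 ≤ ∑ x : G, (∑ y : G, f y * f (y + x)) ^ k := by
  have h := sift_id h2 f (fun _ => 1) k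
  have h1 : 0 ≤ ∑ t : Fin k → G, ∑ u : G, ∑ u' : G,
      (1 : ℝ) * (∏ i, f (u + t i)) * ∏ i, f (u' + t i) := by
    refine sum_nonneg fun t _ => ?_
    have : ∑ u : G, ∑ u' : G, (1 : ℝ) * (∏ i, f (u + t i)) * ∏ i, f (u' + t i) =
        (∑ u : G, ∏ i, f (u + t i)) ^ 2 := by
      rw [sq, sum_mul_sum]
      simp only [one_mul]
    rw [this]
    exact sq_nonneg _
  rw [h] at h1
  simp only [one_mul] at h1
  have hG : (0 : ℝ) < Fintype.card G := by exact_mod_cast Fintype.card_pos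
  exact nonneg_of_mul_nonneg_right h1 hG

/-- number of representations of `x` as a sum of two elements of `B` -/
noncomputable def rr (B : Finset G) (x : G) : ℝ := ((B.filter fun u => u + x ∈ B).card : ℝ)

theorem rr_nonneg (B : Finset G) (x : G) : 0 ≤ rr B x := Nat.cast_nonneg _

theorem rr_eq (B : Finset G) (x : G) :
    rr B x = ∑ y : G, (if y ∈ B then (1 : ℝ) else 0) * (if y + x ∈ B then 1 else 0) := by
  unfold rr
  rw [card_filter]
  push_cast
  rw [← sum_filter_add_sum_filter_not univ (fun y => y ∈ B)]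
  rw [sum_eq_zero (s := univ.filter fun y => ¬ y ∈ B), add_zero]
  · have : univ.filter (fun y => y ∈ B) = B := by ext; simp
    rw [this]
    refine sum_congr rfl fun y hy => ?_
    rw [if_pos hy, one_mul]
  · intro y hy
    rw [if_neg (mem_filter.1 hy).2, zero_mul]

theorem sum_rr (B : Finset G) : ∑ x : G, rr B x = (B.card : ℝ) ^ 2 := by
  simp only [rr_eq]
  rw [sum_comm]
  have h : ∀ y : G, ∑ x : G, (if y ∈ B then (1 : ℝ) else 0) * (if y + x ∈ B then 1 else 0) =
      (if y ∈ B then (1 : ℝ) else 0) * B.card := by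
    intro y
    rw [← mul_sum]
    congr 1
    have : ∑ x : G, (if y + x ∈ B then (1 : ℝ) else 0) = ∑ x : G, if x ∈ B then (1 : ℝ) else 0 :=
      Fintype.sum_equiv (Equiv.addLeft y) _ _ fun x => rfl
    rw [this]
    simp
  rw [sum_congr rfl fun y _ => h y, ← sum_mul, sq]
  simp

/-- centered moments -/
theorem centered (h2 : ∀ x : G, x + x = 0) (B : Finset G) (k : ℕ) :
    0 ≤ ∑ x : G, (rr B x - (B.card : ℝ) ^ 2 / Fintype.card G) ^ k := by
  have hG : (0 : ℝ) < Fintype.card G := by exact_mod_cast Fintype.card_pos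
  obtain ⟨β, hβ⟩ : ∃ β : ℝ, β = B.card / Fintype.card G := ⟨_, rfl⟩
  have h := moment_nonneg h2 (fun y => (if y ∈ B then (1 : ℝ) else 0) - β) k
  refine h.trans (le_of_eq ?_)
  refine sum_congr rfl fun x _ => ?_
  congr 1
  rw [rr_eq]
  have e : ∀ y : G, ((if y ∈ B then (1 : ℝ) else 0) - β) * ((if y + x ∈ B then (1 : ℝ) else 0) - β) =
      (if y ∈ B then (1 : ℝ) else 0) * (if y + x ∈ B then 1 else 0) -
        β * (if y ∈ B then (1 : ℝ) else 0) - β * (if y + x ∈ B then (1 : ℝ) else 0) + β ^ 2 := by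
    intro y
    ring
  rw [sum_congr rfl fun y _ => e y, sum_add_distrib, sum_sub_distrib, sum_sub_distrib,
    ← mul_sum, ← mul_sum, sum_const, card_univ, nsmul_eq_mul]
  have e1 : ∑ y : G, (if y ∈ B then (1 : ℝ) else 0) = B.card := by simp
  have e2 : ∑ y : G, (if y + x ∈ B then (1 : ℝ) else 0) = B.card := by
    have : ∑ y : G, (if y + x ∈ B then (1 : ℝ) else 0) = ∑ y : G, if y ∈ B then (1 : ℝ) else 0 :=
      Fintype.sum_equiv (Equiv.addRight x) _ _ fun y => rfl
    rw [this, e1]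
  rw [e1, e2, hβ]
  field_simp
  ring

/-- sum of the binomial coefficients of even order -/
theorem even_choose (p : ℕ) (hp : 0 < p) :
    ∑ m ∈ range (p + 1), ((1 + (-1 : ℝ) ^ m) / 2) * (p.choose m : ℝ) = 2 ^ p / 2 := by
  have h1 := add_pow (1 : ℝ) 1 p
  have h3 := add_pow (-1 : ℝ) 1 p
  simp only [one_pow, one_mul, mul_one] at h1 h3
  have h4 : (-1 + 1 : ℝ) ^ p = 0 := by
    rw [neg_add_cancel]
    exact zero_pow (by omega)
  rw [h4] at h3
  have e : ∀ m, ((1 + (-1 : ℝ) ^ m) / 2) * (p.choose m : ℝ) =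
      (p.choose m : ℝ) / 2 + ((-1 : ℝ) ^ m * p.choose m) / 2 := fun m => by ring
  rw [sum_congr rfl fun m _ => e m, sum_add_distrib, ← sum_div, ← sum_div, ← h1, ← h3]
  norm_num

/-- if many points have no representation then the `p`-th moment is large -/
theorem moment_lower (h2 : ∀ x : G, x + x = 0) (B : Finset G) (p : ℕ) (hp : 0 < p) :
    2 ^ p / 2 * ((B.card : ℝ) ^ 2 / Fintype.card G) ^ p *
      ((univ.filter fun x : G => rr B x = 0).card : ℝ) ≤ ∑ x : G, rr B x ^ p := by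
  obtain ⟨ρ, hρ⟩ : ∃ ρ : ℝ, ρ = (B.card : ℝ) ^ 2 / Fintype.card G := ⟨_, rfl⟩
  rw [← hρ]
  have hρ0 : 0 ≤ ρ := by rw [hρ]; positivity
  obtain ⟨Z, hZ⟩ : ∃ Z : ℝ, Z = ((univ.filter fun x : G => rr B x = 0).card : ℝ) := ⟨_, rfl⟩
  rw [← hZ]
  have hexp : ∑ x : G, rr B x ^ p =
      ∑ m ∈ range (p + 1), (∑ x : G, (rr B x - ρ) ^ m) * (ρ ^ (p - m) * (p.choose m : ℝ)) := by
    have e : ∀ x : G, rr B x ^ p =
        ∑ m ∈ range (p + 1), (rr B x - ρ) ^ m * ρ ^ (p - m) * (p.choose m : ℝ) := by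
      intro x
      rw [← add_pow]
      congr 1
      ring
    rw [sum_congr rfl fun x _ => e x, sum_comm]
    refine sum_congr rfl fun m _ => ?_
    rw [sum_mul]
    refine sum_congr rfl fun x _ => ?_
    ring
  have hterm : ∀ m, (Z * ρ ^ m) * ((1 + (-1 : ℝ) ^ m) / 2) ≤ ∑ x : G, (rr B x - ρ) ^ m := by
    intro m
    rcases Nat.even_or_odd m with hm | hm
    · rw [hm.neg_one_pow]
      have e1 : (1 + 1 : ℝ) / 2 = 1 := by norm_num
      rw [e1, mul_one, hZ]
      calc ((univ.filter fun x : G => rr B x = 0).card : ℝ) * ρ ^ m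
          = ∑ x ∈ univ.filter (fun x : G => rr B x = 0), (rr B x - ρ) ^ m := by
            rw [← nsmul_eq_mul, ← sum_const]
            refine sum_congr rfl fun x hx => ?_
            rw [(mem_filter.1 hx).2, zero_sub, hm.neg_pow]
        _ ≤ _ := sum_le_sum_of_subset_of_nonneg (filter_subset _ _)
            fun x _ _ => hm.pow_nonneg _
    · rw [hm.neg_one_pow]
      have e1 : (1 + -1 : ℝ) / 2 = 0 := by norm_num
      rw [e1, mul_zero, hρ]
      exact centered h2 B m
  rw [hexp]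
  calc 2 ^ p / 2 * ρ ^ p * Z
      = ∑ m ∈ range (p + 1), ((Z * ρ ^ m) * ((1 + (-1 : ℝ) ^ m) / 2)) *
          (ρ ^ (p - m) * (p.choose m : ℝ)) := by
        rw [← even_choose p hp, sum_mul, sum_mul]
        refine sum_congr rfl fun m hm => ?_
        have : ρ ^ p = ρ ^ m * ρ ^ (p - m) := by
          rw [← pow_add]
          congr 1
          have := mem_range.1 hm
          omega
        rw [this]
        ring
    _ ≤ _ := by
        refine sum_le_sum fun m _ => ?_
        exact mul_le_mul_of_nonneg_right (hterm m) (by positivity)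

end PT
end

section

/-!
MP_c6cae0_co, `A + A` and `A + A + A`: the sifted set.
-/

set_option autoImplicit false

namespace PT

open Finset

variable {G : Type*} [AddCommGroup G] [Fintype G] [DecidableEq G]

/-- the intersection of the translates `B + t i` -/
def Bt (B : Finset G) {k : ℕ} (t : Fin k → G) : Finset G := univ.filter fun u => ∀ i, u + t i ∈ B

theorem prod_ind (B : Finset G) {k : ℕ} (t : Fin k → G) (u : G) :
    ∏ i, (if u + t i ∈ B then (1 : ℝ) else 0) = if u ∈ Bt B t then 1 else 0 := by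
  rw [prod_ite_zero]
  unfold Bt
  simp

theorem sift_sum (h2 : ∀ x : G, x + x = 0) (B : Finset G) (φ : G → ℝ) (k : ℕ) :
    ∑ t : Fin k → G, ∑ u ∈ Bt B t, ∑ u' ∈ Bt B t, φ (u + u') =
      Fintype.card G * ∑ x : G, φ x * rr B x ^ k := by
  have h := sift_id h2 (fun y => if y ∈ B then (1 : ℝ) else 0) φ k
  have e : ∀ x : G, rr B x = ∑ y : G, (fun y => if y ∈ B then (1 : ℝ) else 0) y *
      (fun y => if y ∈ B then (1 : ℝ) else 0) (y + x) := fun x => rr_eq B x
  simp only [e]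
  rw [← h]
  refine sum_congr rfl fun t _ => ?_
  simp only [prod_ind]
  rw [← sum_filter_add_sum_filter_not univ (fun u => u ∈ Bt B t)]
  rw [sum_eq_zero (s := univ.filter fun u => ¬ u ∈ Bt B t), add_zero]
  · have hf : univ.filter (fun u => u ∈ Bt B t) = Bt B t := by ext; simp
    rw [hf]
    refine sum_congr rfl fun u hu => ?_
    rw [← sum_filter_add_sum_filter_not univ (fun u => u ∈ Bt B t)]
    rw [sum_eq_zero (s := univ.filter fun u => ¬ u ∈ Bt B t), add_zero, hf]
    · refine sum_congr rfl fun u' hu' => ?_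
      rw [if_pos hu, if_pos hu', mul_one, mul_one]
    · intro u' hu'
      rw [if_neg (mem_filter.1 hu').2, mul_zero]
  · intro u hu
    refine sum_eq_zero fun u' _ => ?_
    rw [if_neg (mem_filter.1 hu).2, mul_zero, zero_mul]

theorem sum_card_Bt (B : Finset G) (k : ℕ) :
    ∑ t : Fin k → G, ((Bt B t).card : ℝ) = Fintype.card G * (B.card : ℝ) ^ k := by
  have e : ∀ t : Fin k → G, ((Bt B t).card : ℝ) = ∑ u : G, ∏ i, (if u + t i ∈ B then (1 : ℝ) else 0) := by
    intro t
    simp only [prod_ind]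
    simp
  rw [sum_congr rfl fun t _ => e t, sum_comm]
  have h : ∀ u : G, ∑ t : Fin k → G, ∏ i, (if u + t i ∈ B then (1 : ℝ) else 0) = (B.card : ℝ) ^ k := by
    intro u
    have h1 := Fintype.sum_pow (fun y : G => if u + y ∈ B then (1 : ℝ) else 0) k
    rw [← h1]
    congr 1
    have : ∑ y : G, (if u + y ∈ B then (1 : ℝ) else 0) = ∑ y : G, if y ∈ B then (1 : ℝ) else 0 :=
      Fintype.sum_equiv (Equiv.addLeft u) _ _ fun y => rfl
    rw [this]
    simp
  rw [sum_congr rfl fun u _ => h u, sum_const, card_univ, nsmul_eq_mul]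

theorem sum_sq_Bt (h2 : ∀ x : G, x + x = 0) (B : Finset G) (k : ℕ) :
    ∑ t : Fin k → G, ((Bt B t).card : ℝ) ^ 2 = Fintype.card G * ∑ x : G, rr B x ^ k := by
  have h := sift_sum h2 B (fun _ => 1) k
  simp only [one_mul] at h
  rw [← h]
  refine sum_congr rfl fun t _ => ?_
  simp [sq]

/-- the sifted set -/
theorem exists_sift (h2 : ∀ x : G, x + x = 0) {B : Finset G} (hB : B.Nonempty) {γ η : ℝ}
    (hγ : 0 < γ) (hη : 0 < η) {p : ℕ} (hp : 0 < p)
    (hZ : γ * Fintype.card G ≤ ((univ.filter fun x : G => rr B x = 0).card : ℝ))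
    (h1 : 2 * (5 / 8 : ℝ) ^ p ≤ η * γ) (h4 : 4 < 2 ^ p * γ) :
    ∃ D : Finset G, D.Nonempty ∧
      ((B.card : ℝ) / Fintype.card G) ^ p * Fintype.card G ≤ D.card ∧
      ∑ u ∈ D, ∑ u' ∈ D, (if rr B (u + u') < 5 / 4 * ((B.card : ℝ) ^ 2 / Fintype.card G)
        then (1 : ℝ) else 0) ≤ 2 * η * (D.card : ℝ) ^ 2 := by
  have hN : (0 : ℝ) < Fintype.card G := by exact_mod_cast Fintype.card_pos
  have hb : (0 : ℝ) < B.card := by exact_mod_cast hB.card_pos
  obtain ⟨N, hNd⟩ : ∃ N : ℝ, N = Fintype.card G := ⟨_, rfl⟩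
  obtain ⟨b, hbd⟩ : ∃ b : ℝ, b = B.card := ⟨_, rfl⟩
  obtain ⟨ρ, hρ⟩ : ∃ ρ : ℝ, ρ = b ^ 2 / N := ⟨_, rfl⟩
  obtain ⟨θ, hθ⟩ : ∃ θ : ℝ, θ = (b / N) ^ p * N := ⟨_, rfl⟩
  obtain ⟨φ, hφ⟩ : ∃ φ : G → ℝ, φ = fun x => if rr B x < 5 / 4 * ρ then (1 : ℝ) else 0 := ⟨_, rfl⟩
  rw [← hNd] at hN
  rw [← hbd] at hb
  have hρ0 : 0 < ρ := by rw [hρ]; positivity
  have hθ0 : 0 < θ := by rw [hθ]; positivity
  by_contra hcon
  have hcon' : ∀ t : Fin p → G, θ ≤ (Bt B t).card →
      2 * η * ((Bt B t).card : ℝ) ^ 2 ≤ ∑ u ∈ Bt B t, ∑ u' ∈ Bt B t, φ (u + u') := by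
    intro t ht
    by_contra h
    apply hcon
    refine ⟨Bt B t, ?_, ?_, ?_⟩
    · rw [← card_pos]
      have : (0 : ℝ) < (Bt B t).card := lt_of_lt_of_le hθ0 ht
      exact_mod_cast this
    · rw [← hbd, ← hNd, ← hθ]
      exact ht
    · rw [← hbd, ← hNd, ← hρ]
      have := (not_le.1 h).le
      rw [hφ] at this
      exact this
  -- the total mass
  obtain ⟨Q, hQ⟩ : ∃ Q : ℝ, Q = ∑ t : Fin p → G, ((Bt B t).card : ℝ) ^ 2 := ⟨_, rfl⟩
  have hQ1 : N ^ 2 * (2 ^ p / 2) * ρ ^ p * γ ≤ Q := by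
    rw [hQ, sum_sq_Bt h2 B p, ← hNd]
    have h := moment_lower h2 B p hp
    rw [← hbd, ← hNd, ← hρ] at h
    rw [← hNd] at hZ
    have h5 : 2 ^ p / 2 * ρ ^ p * (γ * N) ≤ ∑ x : G, rr B x ^ p :=
      (mul_le_mul_of_nonneg_left hZ (by positivity)).trans h
    calc N ^ 2 * (2 ^ p / 2) * ρ ^ p * γ = N * (2 ^ p / 2 * ρ ^ p * (γ * N)) := by ring
      _ ≤ _ := mul_le_mul_of_nonneg_left h5 hN.le
  have hQ0 : 0 < Q := lt_of_lt_of_le (by positivity) hQ1
  -- the bad part
  have hbad : ∑ t : Fin p → G, ∑ u ∈ Bt B t, ∑ u' ∈ Bt B t, φ (u + u') ≤ η * Q := by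
    rw [sift_sum h2 B φ p, ← hNd]
    have h5 : ∑ x : G, φ x * rr B x ^ p ≤ ∑ _x : G, (5 / 4 * ρ) ^ p := by
      refine sum_le_sum fun x _ => ?_
      rw [hφ]
      simp only
      split_ifs with h
      · rw [one_mul]
        exact pow_le_pow_left₀ (rr_nonneg B x) h.le p
      · rw [zero_mul]
        positivity
    rw [sum_const, card_univ, nsmul_eq_mul, ← hNd] at h5
    have h6 : (5 / 4 : ℝ) ^ p ≤ η * γ * (2 ^ p / 2) := by
      have h7 : (5 / 4 : ℝ) ^ p = (5 / 8) ^ p * 2 ^ p := by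
        rw [← mul_pow]
        norm_num
      rw [h7]
      have h8 : (0 : ℝ) < 2 ^ p := by positivity
      nlinarith
    calc N * ∑ x : G, φ x * rr B x ^ p ≤ N * (N * (5 / 4 * ρ) ^ p) :=
          mul_le_mul_of_nonneg_left h5 hN.le
      _ = N ^ 2 * ρ ^ p * (5 / 4) ^ p := by rw [mul_pow]; ring
      _ ≤ N ^ 2 * ρ ^ p * (η * γ * (2 ^ p / 2)) := mul_le_mul_of_nonneg_left h6 (by positivity)
      _ = η * (N ^ 2 * (2 ^ p / 2) * ρ ^ p * γ) := by ring
      _ ≤ η * Q := mul_le_mul_of_nonneg_left hQ1 hη.le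
  -- the small part
  have hsmall : ∑ t ∈ univ.filter (fun t : Fin p → G => ¬ θ ≤ (Bt B t).card), ((Bt B t).card : ℝ) ^ 2 <
      Q / 2 := by
    have h5 : ∑ t ∈ univ.filter (fun t : Fin p → G => ¬ θ ≤ (Bt B t).card), ((Bt B t).card : ℝ) ^ 2 ≤
        θ * (N * b ^ p) := by
      calc _ ≤ ∑ t ∈ univ.filter (fun t : Fin p → G => ¬ θ ≤ (Bt B t).card),
              θ * ((Bt B t).card : ℝ) := by
            refine sum_le_sum fun t ht => ?_
            rw [sq]
            exact mul_le_mul_of_nonneg_right (not_le.1 (mem_filter.1 ht).2).le (Nat.cast_nonneg _)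
        _ ≤ ∑ t : Fin p → G, θ * ((Bt B t).card : ℝ) :=
            sum_le_sum_of_subset_of_nonneg (filter_subset _ _) fun t _ _ => by positivity
        _ = _ := by rw [← mul_sum, sum_card_Bt, ← hNd, ← hbd]
    refine lt_of_le_of_lt h5 ?_
    have h6 : θ * (N * b ^ p) = N ^ 2 * ρ ^ p := by
      rw [hθ, hρ, div_pow, div_pow]
      field_simp
      try ring
    rw [h6]
    have h7 : N ^ 2 * ρ ^ p * 2 < N ^ 2 * (2 ^ p / 2) * ρ ^ p * γ := by
      have h8 : 0 < N ^ 2 * ρ ^ p := by positivity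
      nlinarith
    linarith
  have hbig : 2 * η * (Q / 2) < ∑ t : Fin p → G, ∑ u ∈ Bt B t, ∑ u' ∈ Bt B t, φ (u + u') := by
    have h5 := sum_filter_add_sum_filter_not (univ : Finset (Fin p → G))
      (fun t => θ ≤ (Bt B t).card) (fun t => ((Bt B t).card : ℝ) ^ 2)
    rw [← hQ] at h5
    have h6 : ∑ t ∈ univ.filter (fun t : Fin p → G => θ ≤ (Bt B t).card),
        2 * η * ((Bt B t).card : ℝ) ^ 2 ≤
        ∑ t : Fin p → G, ∑ u ∈ Bt B t, ∑ u' ∈ Bt B t, φ (u + u') := by
      calc _ ≤ ∑ t ∈ univ.filter (fun t : Fin p → G => θ ≤ (Bt B t).card),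
            ∑ u ∈ Bt B t, ∑ u' ∈ Bt B t, φ (u + u') :=
            sum_le_sum fun t ht => hcon' t (mem_filter.1 ht).2
        _ ≤ _ := sum_le_sum_of_subset_of_nonneg (filter_subset _ _) fun t _ _ =>
            sum_nonneg fun u _ => sum_nonneg fun u' _ => by
              rw [hφ]
              simp only
              split_ifs <;> norm_num
    rw [← mul_sum] at h6
    have h7 : Q / 2 < ∑ t ∈ univ.filter (fun t : Fin p → G => θ ≤ (Bt B t).card),
        ((Bt B t).card : ℝ) ^ 2 := by linarith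
    calc 2 * η * (Q / 2) < 2 * η * _ := mul_lt_mul_of_pos_left h7 (by positivity)
      _ ≤ _ := h6
  linarith

end PT
end

section

/-!
MP_c6cae0_co, `A + A` and `A + A + A`: a set without density increments has almost full `B + B`.
-/

set_option autoImplicit false

namespace PT

open Finset
open scoped Classical

/-- choice of the exponent -/
theorem num_p {γ : ℝ} (hγ : 0 < γ) (hγ1 : γ ≤ 1) : ∃ p : ℕ, 0 < p ∧
    (p : ℝ) ≤ 11 * (1 + Real.log (1 / γ)) ∧ 2 * (5 / 8 : ℝ) ^ p ≤ 1 / 40 * γ ∧ 4 < 2 ^ p * γ := by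
  have hl : 0 ≤ Real.log (1 / γ) := Real.log_nonneg (by rw [le_div_iff₀ hγ]; linarith)
  have h85 : 0.47 ≤ Real.log (8 / 5) := by
    rw [Real.le_log_iff_exp_le (by norm_num)]
    have h : Real.exp (0.47 : ℝ) ^ 100 ≤ (8 / 5 : ℝ) ^ 100 := by
      rw [← Real.exp_nat_mul]
      have e : ((100 : ℕ) : ℝ) * 0.47 = ((47 : ℕ) : ℝ) * 1 := by norm_num
      rw [e, Real.exp_nat_mul]
      have h1 : Real.exp 1 ^ 47 ≤ (2.7182818286 : ℝ) ^ 47 :=
        pow_le_pow_left₀ (Real.exp_pos 1).le Real.exp_one_lt_d9.le 47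
      refine h1.trans ?_
      norm_num
    exact le_of_pow_le_pow_left₀ (by norm_num) (by norm_num) h
  have h80 : Real.log 80 ≤ 4.4 := by
    rw [Real.log_le_iff_le_exp (by norm_num)]
    have h : (80 : ℝ) ^ 5 ≤ Real.exp (4.4 : ℝ) ^ 5 := by
      rw [← Real.exp_nat_mul]
      have e : ((5 : ℕ) : ℝ) * 4.4 = ((22 : ℕ) : ℝ) * 1 := by norm_num
      rw [e, Real.exp_nat_mul]
      have h1 : (2.718 : ℝ) ^ 22 ≤ Real.exp 1 ^ 22 :=
        pow_le_pow_left₀ (by norm_num) (by linarith [Real.exp_one_gt_d9]) 22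
      refine le_trans ?_ h1
      norm_num
    exact le_of_pow_le_pow_left₀ (by norm_num) (Real.exp_pos _).le h
  have h80γ : Real.log (80 / γ) = Real.log 80 + Real.log (1 / γ) := by
    rw [← Real.log_mul (by norm_num) (by positivity)]
    congr 1
    ring
  obtain ⟨p, hp⟩ : ∃ p : ℕ, p = ⌈Real.log (80 / γ) / Real.log (8 / 5)⌉₊ := ⟨_, rfl⟩
  have h80pos : 0 < Real.log 80 := Real.log_pos (by norm_num)
  have hq0 : 0 < Real.log (80 / γ) / Real.log (8 / 5) := by
    apply div_pos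
    · rw [h80γ]; linarith
    · linarith
  have hp1 : Real.log (80 / γ) / Real.log (8 / 5) ≤ p := by rw [hp]; exact Nat.le_ceil _
  have hp2 : (p : ℝ) < Real.log (80 / γ) / Real.log (8 / 5) + 1 := by
    rw [hp]; exact Nat.ceil_lt_add_one hq0.le
  have hp0 : 0 < p := by
    have : (0 : ℝ) < p := lt_of_lt_of_le hq0 hp1
    exact_mod_cast this
  have hpow : 80 / γ ≤ (8 / 5 : ℝ) ^ p := by
    rw [← Real.log_le_log_iff (by positivity) (by positivity), Real.log_pow]
    rw [div_le_iff₀ (by linarith)] at hp1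
    exact hp1
  refine ⟨p, hp0, ?_, ?_, ?_⟩
  · refine hp2.le.trans ?_
    have : Real.log (80 / γ) / Real.log (8 / 5) ≤ (4.4 + Real.log (1 / γ)) / 0.47 := by
      rw [h80γ]
      apply div_le_div₀ (by linarith) (by linarith) (by norm_num) h85
    refine (add_le_add_left this 1).trans ?_
    have e : (4.4 + Real.log (1 / γ)) / 0.47 = 4.4 / 0.47 + Real.log (1 / γ) / 0.47 := add_div _ _ _
    rw [e]
    have e1 : (4.4 : ℝ) / 0.47 + 1 ≤ 11 := by norm_num
    have e2 : Real.log (1 / γ) / 0.47 ≤ 11 * Real.log (1 / γ) := by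
      rw [div_le_iff₀ (by norm_num)]
      nlinarith
    linarith
  · have h1 : (5 / 8 : ℝ) ^ p * (8 / 5) ^ p = 1 := by
      rw [← mul_pow]
      norm_num
    have h2 : (0 : ℝ) < (5 / 8) ^ p := by positivity
    have h3 : (5 / 8 : ℝ) ^ p * (80 / γ) ≤ 1 := by
      rw [← h1]
      exact mul_le_mul_of_nonneg_left hpow h2.le
    rw [← mul_div_assoc, div_le_iff₀ hγ, one_mul] at h3
    linarith
  · have h1 : (8 / 5 : ℝ) ^ p ≤ 2 ^ p := pow_le_pow_left₀ (by norm_num) (by norm_num) p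
    have h3 : 80 / γ ≤ 2 ^ p := hpow.trans h1
    rw [div_le_iff₀ hγ] at h3
    linarith

variable {G : Type} [AddCommGroup G] [Fintype G]

/-- counting on a coset -/
theorem sum_coset_le (B : Finset G) (V : AddSubgroup G) (w : G) {M : ℝ}
    (hM : ∀ y : G, (PB.cnt B V y : ℝ) ≤ M) :
    ∑ y ∈ univ.filter (fun y : G => y ∈ V), rr B (w + y) ≤ B.card * M := by
  have e : ∀ y : G, rr B (w + y) = ∑ u ∈ B, (if u + (w + y) ∈ B then (1 : ℝ) else 0) := by
    intro y
    unfold rr
    rw [card_filter]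
    push_cast
    rfl
  rw [sum_congr rfl fun y _ => e y, sum_comm, ← nsmul_eq_mul, ← sum_const]
  refine sum_le_sum fun u _ => ?_
  refine le_trans (le_of_eq ?_) (hM (u + w))
  rw [← sum_filter, sum_const, nsmul_eq_mul, mul_one]
  unfold PB.cnt
  congr 1
  refine card_bij (fun y _ => u + (w + y)) ?_ ?_ ?_
  · intro y hy
    rw [mem_filter, mem_filter] at hy
    rw [mem_filter]
    refine ⟨hy.2, ?_⟩
    have : u + (w + y) - (u + w) = y := by abel
    rw [this]
    exact hy.1.2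
  · intro y _ y' _ h
    exact add_left_cancel (add_left_cancel h)
  · intro a ha
    rw [mem_filter] at ha
    refine ⟨a - (u + w), ?_, by abel⟩
    rw [mem_filter, mem_filter]
    refine ⟨⟨mem_univ _, ha.2⟩, ?_⟩
    have : u + (w + (a - (u + w))) = a := by abel
    rw [this]
    exact ha.1

/-- averaging: a coset on which `rr` is large -/
theorem exists_large_coset {D : Finset G} (hD : D.Nonempty) (V : AddSubgroup G) (B : Finset G) {σ : ℝ}
    (hσ : 0 ≤ σ)
    (hbad : ∑ u ∈ D, ∑ u' ∈ D, (if rr B (u + u') < σ then (1 : ℝ) else 0) ≤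
      2 * (1 / 40) * (D.card : ℝ) ^ 2)
    (hV : ∀ y ∈ V, ∑ b ∈ D, |PH.avA D (fun x => if rr B x < σ then (0 : ℝ) else 1) (b + y) -
      PH.avA D (fun x => if rr B x < σ then (0 : ℝ) else 1) b| ≤ 1 / 40 * D.card) :
    ∃ w : G, 37 / 40 * σ * (Nat.card V : ℝ) ≤ ∑ y ∈ univ.filter (fun y : G => y ∈ V), rr B (w + y) := by
  have hd : (0 : ℝ) < D.card := by exact_mod_cast hD.card_pos
  obtain ⟨f, hf⟩ : ∃ f : G → ℝ, f = fun x => if rr B x < σ then (0 : ℝ) else 1 := ⟨_, rfl⟩
  rw [← hf] at hV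
  have hav : ∀ x, PH.avA D f x = (∑ a ∈ D, f (x + a)) / D.card := fun x => rfl
  have hsum0 : 38 / 40 * (D.card : ℝ) ≤ ∑ b ∈ D, PH.avA D f b := by
    have e : ∑ b ∈ D, PH.avA D f b = (∑ b ∈ D, ∑ a ∈ D, f (b + a)) / D.card := by
      rw [sum_div]
      exact sum_congr rfl fun b _ => hav b
    rw [e, le_div_iff₀ hd]
    have e2 : ∑ b ∈ D, ∑ a ∈ D, f (b + a) = (D.card : ℝ) ^ 2 -
        ∑ u ∈ D, ∑ u' ∈ D, (if rr B (u + u') < σ then (1 : ℝ) else 0) := by
      have e3 : (D.card : ℝ) ^ 2 = ∑ u ∈ D, ∑ u' ∈ D, (1 : ℝ) := by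
        simp [sq]
      rw [e3, ← sum_sub_distrib]
      refine sum_congr rfl fun b _ => ?_
      rw [← sum_sub_distrib]
      refine sum_congr rfl fun a _ => ?_
      rw [hf]
      simp only
      split_ifs <;> norm_num
    rw [e2]
    nlinarith
  have hsum : ∀ y ∈ V, 37 / 40 * (D.card : ℝ) ≤ ∑ b ∈ D, PH.avA D f (b + y) := by
    intro y hy
    have h1 := hV y hy
    have h2 : ∑ b ∈ D, PH.avA D f b - ∑ b ∈ D, PH.avA D f (b + y) ≤
        ∑ b ∈ D, |PH.avA D f (b + y) - PH.avA D f b| := by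
      rw [← sum_sub_distrib]
      refine sum_le_sum fun b _ => ?_
      rw [abs_sub_comm]
      exact le_abs_self _
    linarith
  -- sum over V
  by_contra hcon
  push Not at hcon
  have hVfin : (Nat.card V : ℝ) = ((univ.filter fun y : G => y ∈ V).card : ℝ) := by
    rw [Nat.card_eq_fintype_card, Fintype.card_subtype]
  have h3 : ∑ y ∈ univ.filter (fun y : G => y ∈ V), ∑ b ∈ D, σ * ∑ a ∈ D, f (b + y + a) ≤
      ∑ b ∈ D, ∑ a ∈ D, ∑ y ∈ univ.filter (fun y : G => y ∈ V), rr B (b + a + y) := by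
    rw [sum_comm]
    refine sum_le_sum fun b _ => ?_
    rw [sum_comm]
    refine sum_le_sum fun y _ => ?_
    rw [mul_sum]
    refine sum_le_sum fun a _ => ?_
    have e : b + y + a = b + a + y := by abel
    rw [e, hf]
    simp only
    split_ifs with h
    · rw [mul_zero]
      exact rr_nonneg _ _
    · rw [mul_one]
      exact not_lt.1 h
  have h4 : ∑ b ∈ D, ∑ a ∈ D, ∑ y ∈ univ.filter (fun y : G => y ∈ V), rr B (b + a + y) <
      ∑ b ∈ D, ∑ a ∈ D, 37 / 40 * σ * (Nat.card V : ℝ) := by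
    apply sum_lt_sum_of_nonempty hD
    intro b _
    apply sum_lt_sum_of_nonempty hD
    intro a _
    exact hcon (b + a)
  have h5 : ∑ b ∈ D, ∑ a ∈ D, 37 / 40 * σ * (Nat.card V : ℝ) =
      (D.card : ℝ) ^ 2 * (37 / 40 * σ * (Nat.card V : ℝ)) := by
    rw [sum_const, sum_const, nsmul_eq_mul, nsmul_eq_mul]
    ring
  have h6 : (D.card : ℝ) ^ 2 * (37 / 40 * σ * (Nat.card V : ℝ)) ≤
      ∑ y ∈ univ.filter (fun y : G => y ∈ V), ∑ b ∈ D, σ * ∑ a ∈ D, f (b + y + a) := by
    have h7 : ∑ y ∈ univ.filter (fun y : G => y ∈ V), σ * D.card * (37 / 40 * D.card) ≤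
        ∑ y ∈ univ.filter (fun y : G => y ∈ V), ∑ b ∈ D, σ * ∑ a ∈ D, f (b + y + a) := by
      refine sum_le_sum fun y hy => ?_
      have h8 := hsum y (mem_filter.1 hy).2
      have e : ∑ b ∈ D, σ * ∑ a ∈ D, f (b + y + a) = σ * D.card * ∑ b ∈ D, PH.avA D f (b + y) := by
        rw [mul_sum]
        refine sum_congr rfl fun b _ => ?_
        rw [hav]
        field_simp
      rw [e]
      exact mul_le_mul_of_nonneg_left h8 (by positivity)
    refine le_trans (le_of_eq ?_) h7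
    rw [sum_const, nsmul_eq_mul, ← hVfin]
    ring
  rw [h5] at h4
  linarith

end PT
end

section

/-!
MP_c6cae0_co, `A + A` and `A + A + A`: the theorem for finite groups of exponent two.
-/

set_option autoImplicit false

namespace PT

open Finset
open scoped Classical

/-- A set without density increments has almost full `B + B`. -/
theorem full_of_spread : ∃ C : ℝ, 0 < C ∧ ∀ (G : Type) [AddCommGroup G] [Fintype G],
    (∀ x : G, x + x = 0) → ∀ B : Finset G, B.Nonempty → ∀ γ c : ℝ, 0 < γ → γ ≤ 1 → 0 ≤ c →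
      (∀ (K : AddSubgroup G) (y : G), (PB.cnt B K y : ℝ) / Nat.card K ≤
        (B.card : ℝ) / Fintype.card G * (K.index : ℝ) ^ c) →
      c * (C * ((1 + Real.log (Fintype.card G / B.card)) * (1 + Real.log (1 / γ))) ^ 2 *
        Real.log (2 + (1 + Real.log (Fintype.card G / B.card)) * (1 + Real.log (1 / γ))) ^ 2) ≤ 1 →
      ((univ.filter fun x : G => rr B x = 0).card : ℝ) < γ * Fintype.card G := by
  obtain ⟨C, hC, hAP⟩ := PH.almost_periods
  refine ⟨C * 184320000, by positivity, ?_⟩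
  intro G _ _ h2 B hB γ c hγ hγ1 hc hspread hcC
  by_contra hcon
  have hZ := not_lt.1 hcon
  have hN : (0 : ℝ) < Fintype.card G := by exact_mod_cast Fintype.card_pos
  have hb : (0 : ℝ) < B.card := by exact_mod_cast hB.card_pos
  have hbN : (B.card : ℝ) ≤ Fintype.card G := by exact_mod_cast card_le_univ B
  obtain ⟨L, hL⟩ : ∃ L, L = Real.log (Fintype.card G / B.card) := ⟨_, rfl⟩
  obtain ⟨l, hl⟩ : ∃ l, l = Real.log (1 / γ) := ⟨_, rfl⟩
  rw [← hL, ← hl] at hcC
  have hL0 : 0 ≤ L := by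
    rw [hL]
    apply Real.log_nonneg
    rw [le_div_iff₀ hb, one_mul]
    exact hbN
  have hl0 : 0 ≤ l := by
    rw [hl]
    apply Real.log_nonneg
    rw [le_div_iff₀ hγ]
    linarith
  obtain ⟨P, hP⟩ : ∃ P, P = (1 + L) * (1 + l) := ⟨_, rfl⟩
  rw [← hP] at hcC
  have hP1 : 1 ≤ P := by rw [hP]; nlinarith
  obtain ⟨p, hp0, hp1, hp2, hp3⟩ := num_p hγ hγ1
  rw [← hl] at hp1
  obtain ⟨D, hD, hDc, hDb⟩ := exists_sift h2 hB hγ (η := 1 / 40) (by norm_num) hp0 hZ hp2 hp3
  have hd : (0 : ℝ) < D.card := by exact_mod_cast hD.card_pos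
  have hdN : (D.card : ℝ) ≤ Fintype.card G := by exact_mod_cast card_le_univ D
  obtain ⟨ρ, hρ⟩ : ∃ ρ : ℝ, ρ = (B.card : ℝ) ^ 2 / Fintype.card G := ⟨_, rfl⟩
  have hρ0 : 0 < ρ := by rw [hρ]; positivity
  rw [← hρ] at hDb
  obtain ⟨V, hV1, hV2⟩ := hAP G h2 D D hD hD (fun x => if rr B x < 5 / 4 * ρ then (0 : ℝ) else 1)
    (fun x => by split_ifs <;> norm_num) (1 / 40) (by norm_num) (by norm_num)
  obtain ⟨w, hw⟩ := exists_large_coset hD V B (σ := 5 / 4 * ρ) (by positivity) hDb hV2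
  -- K
  obtain ⟨K, hK⟩ : ∃ K, K = Real.log (2 * Fintype.card G / D.card) := ⟨_, rfl⟩
  rw [← hK] at hV1
  have hlog2 : 0.69 < Real.log 2 := by have := Real.log_two_gt_d9; linarith
  have hlog2' : Real.log 2 < 0.7 := by have := Real.log_two_lt_d9; linarith
  have hK0 : 0 < K := by
    rw [hK]
    apply Real.log_pos
    rw [lt_div_iff₀ hd]
    linarith
  have hK1 : K ≤ 12 * P := by
    have e : K = Real.log 2 + Real.log (Fintype.card G / D.card) := by
      rw [hK, mul_div_assoc, Real.log_mul (by norm_num) (by positivity)]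
    have h3 : Real.log (Fintype.card G / D.card) ≤ p * L := by
      rw [hL, ← Real.log_pow]
      apply Real.log_le_log (by positivity)
      rw [div_le_iff₀ hd]
      have h4 : ((Fintype.card G : ℝ) / B.card) ^ p * (((B.card : ℝ) / Fintype.card G) ^ p * Fintype.card G) =
          Fintype.card G := by
        rw [← mul_assoc, ← mul_pow]
        have : (Fintype.card G : ℝ) / B.card * ((B.card : ℝ) / Fintype.card G) = 1 := by
          field_simp
        rw [this, one_pow, one_mul]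
      calc (Fintype.card G : ℝ) = _ := h4.symm
        _ ≤ _ := mul_le_mul_of_nonneg_left hDc (by positivity)
    have h5 : (p : ℝ) * L ≤ 11 * (1 + l) * L := mul_le_mul_of_nonneg_right hp1 hL0
    rw [hP]
    nlinarith [mul_nonneg hL0 hl0]
  have hidx : (0 : ℝ) < V.index := by
    exact_mod_cast Nat.pos_of_ne_zero V.index_ne_zero_of_finite
  have hidx1 : (1 : ℝ) ≤ V.index := by
    have : 1 ≤ V.index := Nat.one_le_iff_ne_zero.mpr V.index_ne_zero_of_finite
    exact_mod_cast this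
  have hVcard : (0 : ℝ) < Nat.card V := by exact_mod_cast Nat.card_pos
  -- bound for log index
  have hlogP : 0 ≤ Real.log (2 + P) := Real.log_nonneg (by linarith)
  have hV3 : Real.log (V.index : ℝ) ≤ C * 23040000 * P ^ 2 * Real.log (2 + P) ^ 2 := by
    refine hV1.trans ?_
    have h3 : Real.log (2 + (K + K) / (1 / 40)) ≤ 10 * Real.log (2 + P) := by
      have e : (10 : ℝ) * Real.log (2 + P) = Real.log ((2 + P) ^ 10) := by
        rw [Real.log_pow]
        norm_num
      rw [e]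
      apply Real.log_le_log
      · have : 0 ≤ (K + K) / (1 / 40) := by positivity
        linarith
      · have h4 : (K + K) / (1 / 40) = 80 * K := by ring
        rw [h4]
        have h5 : (3 : ℝ) ^ 9 ≤ (2 + P) ^ 9 := pow_le_pow_left₀ (by norm_num) (by linarith) 9
        have h6 : (2 + P) ^ 10 = (2 + P) ^ 9 * (2 + P) := pow_succ _ _
        rw [h6]
        nlinarith
    have h4 : 0 ≤ Real.log (2 + (K + K) / (1 / 40)) := by
      apply Real.log_nonneg
      have : 0 ≤ (K + K) / (1 / 40) := by positivity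
      linarith
    have h5 : Real.log (2 + (K + K) / (1 / 40)) ^ 2 ≤ (10 * Real.log (2 + P)) ^ 2 :=
      pow_le_pow_left₀ h4 h3 2
    have h6 : K * K ≤ (12 * P) * (12 * P) := mul_le_mul hK1 hK1 hK0.le (by linarith)
    calc C / (1 / 40) ^ 2 * K * K * Real.log (2 + (K + K) / (1 / 40)) ^ 2
        = C * 1600 * (K * K) * Real.log (2 + (K + K) / (1 / 40)) ^ 2 := by ring
      _ ≤ C * 1600 * ((12 * P) * (12 * P)) * (10 * Real.log (2 + P)) ^ 2 := by
          gcongr
      _ = _ := by ring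
  have hcV : c * Real.log (V.index : ℝ) ≤ 1 / 8 := by
    have h3 : c * Real.log (V.index : ℝ) ≤ c * (C * 23040000 * P ^ 2 * Real.log (2 + P) ^ 2) :=
      mul_le_mul_of_nonneg_left hV3 hc
    have h4 : c * (C * 23040000 * P ^ 2 * Real.log (2 + P) ^ 2) * 8 =
        c * (C * 184320000 * P ^ 2 * Real.log (2 + P) ^ 2) := by ring
    linarith
  have hpow : (V.index : ℝ) ^ c ≤ 1.14 := by
    rw [Real.rpow_def_of_pos hidx, mul_comm]
    refine (Real.exp_le_exp.2 hcV).trans ?_
    have h3 : Real.exp (1 / 8 : ℝ) ^ 8 ≤ (1.14 : ℝ) ^ 8 := by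
      rw [← Real.exp_nat_mul]
      have e : ((8 : ℕ) : ℝ) * (1 / 8) = 1 := by norm_num
      rw [e]
      refine Real.exp_one_lt_d9.le.trans ?_
      norm_num
    exact le_of_pow_le_pow_left₀ (by norm_num) (by norm_num) h3
  -- upper bound
  have hM : ∀ y : G, (PB.cnt B V y : ℝ) ≤ (B.card : ℝ) / Fintype.card G * 1.14 * Nat.card V := by
    intro y
    have h3 := hspread V y
    rw [div_le_iff₀ hVcard] at h3
    refine h3.trans ?_
    gcongr
  have h3 := sum_coset_le B V w hM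
  have h4 := hw.trans h3
  have h5 : (B.card : ℝ) * ((B.card : ℝ) / Fintype.card G * 1.14 * Nat.card V) =
      ρ * 1.14 * Nat.card V := by
    rw [hρ]
    ring
  rw [h5] at h4
  have h6 : 0 < ρ * Nat.card V := by positivity
  nlinarith

/-- no representation -/
theorem rr_zero_of {G : Type*} [AddCommGroup G] [DecidableEq G] {B : Finset G} (y : G)
    (h : ∀ u ∈ B, ¬ (u + y ∈ B)) : rr B y = 0 := by
  unfold rr
  rw [Nat.cast_eq_zero, card_eq_zero, filter_eq_empty_iff]
  exact fun u hu => h u hu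

/-- the slice has no density increments -/
theorem slice_spread {G : Type} [AddCommGroup G] [Fintype G] (A : Finset G) (H : AddSubgroup G) (x : G)
    {c : ℝ}
    (h : ∀ (H' : AddSubgroup G) (x' : G), (PB.cnt A H' x' : ℝ) / Nat.card H' * (Nat.card H' : ℝ) ^ c ≤
      PB.cnt A H x / Nat.card H * (Nat.card H : ℝ) ^ c) (K : AddSubgroup H) (y : H) :
    (PB.cnt (PB.slice A H x) K y : ℝ) / Nat.card K ≤
      ((PB.slice A H x).card : ℝ) / Fintype.card H * (K.index : ℝ) ^ c := by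
  have hKcard : (0 : ℝ) < Nat.card K := by exact_mod_cast Nat.card_pos
  have hHcard : (0 : ℝ) < Nat.card H := by exact_mod_cast Nat.card_pos
  have hidx : (0 : ℝ) < K.index := by
    exact_mod_cast Nat.pos_of_ne_zero K.index_ne_zero_of_finite
  have hmap : Nat.card (K.map H.subtype) = Nat.card K :=
    Nat.card_congr (K.equivMapOfInjective H.subtype H.subtype_injective).toEquiv.symm
  have h1 := h (K.map H.subtype) (x + y)
  rw [hmap] at h1
  have hcnt : PB.cnt (PB.slice A H x) K y ≤ PB.cnt A (K.map H.subtype) (x + y) := by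
    unfold PB.cnt
    refine card_le_card_of_injOn (fun z : H => (z : G) + x) ?_ ?_
    · intro z hz
      have hz' := mem_filter.1 hz
      have hz1 : (z : G) + x ∈ A := by
        have := hz'.1
        unfold PB.slice at this
        exact (mem_filter.1 this).2
      refine mem_coe.2 (mem_filter.2 ⟨hz1, ?_⟩)
      refine ⟨z - y, hz'.2, ?_⟩
      simp only [AddSubgroup.coe_subtype, AddSubgroup.coe_sub]
      abel
    · intro z _ z' _ hzz
      exact Subtype.ext (add_right_cancel hzz)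
  have hmul : (Nat.card H : ℝ) = K.index * Nat.card K := by
    have := K.index_mul_card
    exact_mod_cast this.symm
  rw [PB.card_slice, ← Nat.card_eq_fintype_card (α := H)]
  have hKc : (0 : ℝ) < (Nat.card K : ℝ) ^ c := Real.rpow_pos_of_pos hKcard _
  have h2 : (PB.cnt A (K.map H.subtype) (x + y) : ℝ) / Nat.card K ≤
      PB.cnt A H x / Nat.card H * (K.index : ℝ) ^ c := by
    have h3 : (Nat.card H : ℝ) ^ c = (K.index : ℝ) ^ c * (Nat.card K : ℝ) ^ c := by
      rw [hmul, Real.mul_rpow hidx.le hKcard.le]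
    rw [h3, ← mul_assoc] at h1
    exact le_of_mul_le_mul_right h1 hKc
  refine le_trans ?_ h2
  exact div_le_div_of_nonneg_right (by exact_mod_cast hcnt) hKcard.le

/-- The theorem for groups. -/
theorem two_three_grp : ∃ C : ℝ, 0 < C ∧ ∀ (G : Type) [AddCommGroup G] [Fintype G],
    (∀ x : G, x + x = 0) → ∀ A : Finset G, A.Nonempty → ∀ γ : ℝ, 0 < γ → γ ≤ 1 →
      ∃ (H : AddSubgroup G) (x : G),
        Real.log (H.index : ℝ) ≤ C * Real.log (Fintype.card G / A.card) *
          ((1 + Real.log (Fintype.card G / A.card)) * (1 + Real.log (1 / γ))) ^ 2 *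
          Real.log (2 + (1 + Real.log (Fintype.card G / A.card)) * (1 + Real.log (1 / γ))) ^ 2 ∧
        ((univ.filter fun y : G => y ∈ H ∧ ¬ ∃ a ∈ A, ∃ b ∈ A, a + b = y).card : ℝ) <
          γ * Nat.card H ∧
        (γ ≤ A.card / Fintype.card G → ∀ y ∈ H, ∃ a ∈ A, ∃ b ∈ A, ∃ d ∈ A, x + y = a + b + d) := by
  obtain ⟨C, hC, hmain⟩ := full_of_spread
  refine ⟨C, hC, ?_⟩
  intro G _ _ h2 A hA γ hγ hγ1
  have hN : (0 : ℝ) < Fintype.card G := by exact_mod_cast Fintype.card_pos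
  have ha : (0 : ℝ) < A.card := by exact_mod_cast hA.card_pos
  have haN : (A.card : ℝ) ≤ Fintype.card G := by exact_mod_cast card_le_univ A
  obtain ⟨L, hL⟩ : ∃ L, L = Real.log (Fintype.card G / A.card) := ⟨_, rfl⟩
  obtain ⟨l, hl⟩ : ∃ l, l = Real.log (1 / γ) := ⟨_, rfl⟩
  rw [← hL, ← hl]
  have hL0 : 0 ≤ L := by
    rw [hL]
    apply Real.log_nonneg
    rw [le_div_iff₀ ha, one_mul]
    exact haN
  have hl0 : 0 ≤ l := by
    rw [hl]
    apply Real.log_nonneg
    rw [le_div_iff₀ hγ]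
    linarith
  obtain ⟨P, hP⟩ : ∃ P, P = (1 + L) * (1 + l) := ⟨_, rfl⟩
  rw [← hP]
  have hP1 : 1 ≤ P := by rw [hP]; nlinarith
  have hlogP : 0 < Real.log (2 + P) := Real.log_pos (by linarith)
  obtain ⟨c, hc⟩ : ∃ c, c = 1 / (C * P ^ 2 * Real.log (2 + P) ^ 2) := ⟨_, rfl⟩
  have hc0 : 0 < c := by rw [hc]; positivity
  obtain ⟨H, x, hH1, hH2, hH3⟩ := PB.exists_coset A hA hc0
  obtain ⟨B, hB⟩ : ∃ B, B = PB.slice A H x := ⟨_, rfl⟩
  have hBc : B.card = PB.cnt A H x := by rw [hB]; exact PB.card_slice A H x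
  have hHc : (0 : ℝ) < Nat.card H := by exact_mod_cast Nat.card_pos
  have hHf : (Nat.card H : ℝ) = Fintype.card H := by rw [Nat.card_eq_fintype_card]
  have hBpos : (0 : ℝ) < B.card := by
    rw [hBc]
    have h3 : 0 < (A.card : ℝ) / Fintype.card G := by positivity
    have h4 := lt_of_lt_of_le h3 hH2
    by_contra h5
    have h6 : (PB.cnt A H x : ℝ) = 0 := le_antisymm (not_lt.1 h5) (Nat.cast_nonneg _)
    rw [h6, zero_div] at h4
    exact lt_irrefl _ h4
  have hBne : B.Nonempty := by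
    rw [← card_pos]
    exact_mod_cast hBpos
  have h2' : ∀ y : H, y + y = 0 := fun y => Subtype.ext (h2 y)
  have hLB : Real.log (Fintype.card H / B.card) ≤ L := by
    rw [hL, ← hHf]
    apply Real.log_le_log (by positivity)
    rw [div_le_div_iff₀ hBpos ha]
    rw [hBc]
    rw [div_le_div_iff₀ hN hHc] at hH2
    linarith
  have hLB0 : 0 ≤ Real.log (Fintype.card H / B.card) := by
    apply Real.log_nonneg
    rw [le_div_iff₀ hBpos, one_mul]
    exact_mod_cast card_le_univ B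
  have hsp : ∀ (K : AddSubgroup H) (y : H), (PB.cnt B K y : ℝ) / Nat.card K ≤
      (B.card : ℝ) / Fintype.card H * (K.index : ℝ) ^ c := by
    intro K y
    rw [hB]
    exact slice_spread A H x hH3 K y
  have hnum : c * (C * ((1 + Real.log (Fintype.card H / B.card)) * (1 + Real.log (1 / γ))) ^ 2 *
        Real.log (2 + (1 + Real.log (Fintype.card H / B.card)) * (1 + Real.log (1 / γ))) ^ 2) ≤ 1 := by
    rw [← hl]
    obtain ⟨PB', hPB'⟩ : ∃ PB', PB' = (1 + Real.log (Fintype.card H / B.card)) * (1 + l) := ⟨_, rfl⟩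
    rw [← hPB']
    have h5 : PB' ≤ P := by
      rw [hPB', hP]
      exact mul_le_mul_of_nonneg_right (by linarith) (by linarith)
    have h6 : 0 ≤ PB' := by rw [hPB']; positivity
    have h7 : C * PB' ^ 2 * Real.log (2 + PB') ^ 2 ≤ C * P ^ 2 * Real.log (2 + P) ^ 2 := by
      have h8 : Real.log (2 + PB') ≤ Real.log (2 + P) := Real.log_le_log (by linarith) (by linarith)
      have h9 : 0 ≤ Real.log (2 + PB') := Real.log_nonneg (by linarith)
      gcongr
    calc c * (C * PB' ^ 2 * Real.log (2 + PB') ^ 2) ≤ c * (C * P ^ 2 * Real.log (2 + P) ^ 2) :=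
          mul_le_mul_of_nonneg_left h7 hc0.le
      _ = 1 := by
          rw [hc]
          field_simp
  have hfull := hmain H h2' B hBne γ c hγ hγ1 hc0.le hsp hnum
  have hmemB : ∀ u : H, u ∈ B ↔ (u : G) + x ∈ A := by
    intro u
    rw [hB]
    unfold PB.slice
    rw [mem_filter]
    simp
  have hbad : ((univ.filter fun y : G => y ∈ H ∧ ¬ ∃ a ∈ A, ∃ b ∈ A, a + b = y).card : ℝ) <
      γ * Nat.card H := by
    rw [hHf]
    refine lt_of_le_of_lt ?_ hfull
    rw [Nat.cast_le]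
    refine card_le_card_of_surjOn (fun y : H => (y : G)) ?_
    intro y hy
    have hy' := (mem_filter.1 (mem_coe.1 hy)).2
    refine ⟨⟨y, hy'.1⟩, ?_, rfl⟩
    refine mem_coe.2 (mem_filter.2 ⟨mem_univ _, ?_⟩)
    refine @rr_zero_of _ _ (_) _ _ (fun u hu huy => ?_)
    apply hy'.2
    refine ⟨(u : G) + x, (hmemB u).1 hu, _, (hmemB _).1 huy, ?_⟩
    calc (u : G) + x + (((u + ⟨y, hy'.1⟩ : H) : G) + x) = (u : G) + x + ((u : G) + y + x) := rfl
      _ = ((u : G) + u) + (x + x) + y := by abel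
      _ = y := by rw [h2, h2]; simp
  refine ⟨H, x, ?_, hbad, ?_⟩
  · have hidx : (0 : ℝ) < H.index := by
      exact_mod_cast Nat.pos_of_ne_zero H.index_ne_zero_of_finite
    have h3 : c * Real.log (H.index : ℝ) ≤ L := by
      rw [hL, ← Real.log_rpow hidx]
      exact Real.log_le_log (Real.rpow_pos_of_pos hidx _) hH1
    have h4 : Real.log (H.index : ℝ) ≤ L / c := by
      rw [le_div_iff₀ hc0]
      linarith
    refine h4.trans (le_of_eq ?_)
    rw [hc]
    field_simp
  · intro hγA y hy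
    by_contra hcon
    push Not at hcon
    -- all u + y, u in B, are not in A + A
    have h3 : (B.card : ℝ) ≤ ((univ.filter fun y : G => y ∈ H ∧ ¬ ∃ a ∈ A, ∃ b ∈ A, a + b = y).card : ℝ) := by
      rw [Nat.cast_le]
      refine card_le_card_of_injOn (fun u : H => (u : G) + y) ?_ ?_
      · intro u hu
        refine mem_coe.2 (mem_filter.2 ⟨mem_univ _, H.add_mem u.2 hy, ?_⟩)
        rintro ⟨a, haA, b, hbA, hab⟩
        refine hcon a haA b hbA ((u : G) + x) ((hmemB u).1 hu) ?_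
        have hab' : a + b = (u : G) + y := hab
        calc x + y = x + y + ((u : G) + u) := by rw [h2, add_zero]
          _ = ((u : G) + y) + (u + x) := by abel
          _ = a + b + (u + x) := by rw [hab']
      · intro u _ u' _ huu
        exact Subtype.ext (add_right_cancel huu)
    have h4 : γ * Nat.card H ≤ B.card := by
      have h5 : γ ≤ (B.card : ℝ) / Nat.card H := by
        rw [hBc]
        exact hγA.trans hH2
      rwa [le_div_iff₀ hHc] at h5
    linarith

end PT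
end

section

/-!
MP_c6cae0_co, `A + A` and `A + A + A`: the final statement in `F_2^n`.
-/

set_option autoImplicit false

namespace PT

open Finset
open scoped Classical

theorem three_main : ∃ C : ℝ, 0 < C ∧ ∀ (n : ℕ) (α γ : ℝ), 0 < α → α ≤ 1 → 0 < γ → γ ≤ 1 →
    ∀ A : Finset (Fin n → ZMod 2), α * (2 : ℝ) ^ n ≤ A.card →
      ∃ (W : Submodule (ZMod 2) (Fin n → ZMod 2)) (x : Fin n → ZMod 2),
        (n : ℝ) - Module.finrank (ZMod 2) W ≤ C * Real.log (1 / α) *
          ((1 + Real.log (1 / α)) * (1 + Real.log (1 / γ))) ^ 2 *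
          Real.log (2 + (1 + Real.log (1 / α)) * (1 + Real.log (1 / γ))) ^ 2 ∧
        (Nat.card {w : Fin n → ZMod 2 // w ∈ W ∧ ¬ ∃ a ∈ A, ∃ b ∈ A, a + b = w} : ℝ) <
          γ * Nat.card W ∧
        (γ ≤ α → ∀ w ∈ W, ∃ a ∈ A, ∃ b ∈ A, ∃ d ∈ A, x + w = a + b + d) := by
  obtain ⟨C, hC, hmain⟩ := two_three_grp
  have hlog2 : 0 < Real.log 2 := Real.log_pos (by norm_num)
  refine ⟨C / Real.log 2, by positivity, ?_⟩
  intro n α γ hα hα1 hγ hγ1 A hAα
  have h2 : ∀ x : Fin n → ZMod 2, x + x = 0 := by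
    intro x
    funext i
    have : ∀ z : ZMod 2, z + z = 0 := by decide
    exact this (x i)
  have hA0 : (0 : ℝ) < A.card := lt_of_lt_of_le (by positivity) hAα
  have hA : A.Nonempty := by
    rw [← card_pos]
    exact_mod_cast hA0
  have hcard : (Fintype.card (Fin n → ZMod 2) : ℝ) = 2 ^ n := by
    rw [Fintype.card_fun, ZMod.card, Fintype.card_fin]
    push_cast
    rfl
  have hr : (Fintype.card (Fin n → ZMod 2) : ℝ) / A.card ≤ 1 / α := by
    rw [hcard, div_le_div_iff₀ hA0 hα]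
    linarith
  have hr1 : 1 ≤ (Fintype.card (Fin n → ZMod 2) : ℝ) / A.card := by
    rw [le_div_iff₀ hA0, one_mul]
    exact_mod_cast card_le_univ A
  obtain ⟨L, hL⟩ : ∃ L, L = Real.log ((Fintype.card (Fin n → ZMod 2) : ℝ) / A.card) := ⟨_, rfl⟩
  have hL0 : 0 ≤ L := by rw [hL]; exact Real.log_nonneg hr1
  have hLα : L ≤ Real.log (1 / α) := by rw [hL]; exact Real.log_le_log (by linarith) hr
  have hl0 : 0 ≤ Real.log (1 / γ) := Real.log_nonneg (by rw [le_div_iff₀ hγ]; linarith)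
  obtain ⟨H, x, hH1, hH2, hH3⟩ := hmain (Fin n → ZMod 2) h2 A hA γ hγ hγ1
  obtain ⟨W, hW⟩ : ∃ W, W = AddSubgroup.toZModSubmodule 2 H := ⟨_, rfl⟩
  have hWH : ∀ w, w ∈ W ↔ w ∈ H := by
    intro w
    rw [hW]
    simp
  have hcH : Nat.card H = Nat.card W := by rw [hW]; rfl
  refine ⟨W, x, ?_, ?_, ?_⟩
  · have hcW : Nat.card W = 2 ^ Module.finrank (ZMod 2) W := by
      have := Module.natCard_eq_pow_finrank (K := ZMod 2) (V := W)
      rwa [Nat.card_zmod] at this
    have hdim : Real.log (H.index : ℝ) + Module.finrank (ZMod 2) W * Real.log 2 = n * Real.log 2 := by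
      have hmul := H.index_mul_card
      have hGc : Nat.card (Fin n → ZMod 2) = 2 ^ n := by
        rw [Nat.card_eq_fintype_card, Fintype.card_fun, ZMod.card, Fintype.card_fin]
      rw [hcH, hcW, hGc] at hmul
      have hidx : (0 : ℝ) < H.index := by
        exact_mod_cast Nat.pos_of_ne_zero H.index_ne_zero_of_finite
      have h4 : (H.index : ℝ) * 2 ^ Module.finrank (ZMod 2) W = 2 ^ n := by exact_mod_cast hmul
      have h5 := congrArg Real.log h4
      rwa [Real.log_mul hidx.ne' (by positivity), Real.log_pow, Real.log_pow] at h5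
    have h4 : (n : ℝ) - Module.finrank (ZMod 2) W = Real.log (H.index : ℝ) / Real.log 2 := by
      rw [eq_div_iff hlog2.ne']
      linarith
    rw [h4, div_le_iff₀ hlog2]
    rw [← hL] at hH1
    refine hH1.trans ?_
    obtain ⟨l, hl⟩ : ∃ l, l = Real.log (1 / γ) := ⟨_, rfl⟩
    obtain ⟨M, hM⟩ : ∃ M, M = Real.log (1 / α) := ⟨_, rfl⟩
    rw [← hl] at hl0
    rw [← hM] at hLα
    rw [← hl, ← hM]
    have hM0 : 0 ≤ M := hL0.trans hLα
    have h5 : (1 + L) * (1 + l) ≤ (1 + M) * (1 + l) :=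
      mul_le_mul_of_nonneg_right (by linarith) (by linarith)
    have h6 : 0 ≤ (1 + L) * (1 + l) := by positivity
    have h7 : Real.log (2 + (1 + L) * (1 + l)) ≤ Real.log (2 + (1 + M) * (1 + l)) :=
      Real.log_le_log (by linarith) (by linarith)
    have h8 : 0 ≤ Real.log (2 + (1 + L) * (1 + l)) := Real.log_nonneg (by linarith)
    calc C * L * ((1 + L) * (1 + l)) ^ 2 * Real.log (2 + (1 + L) * (1 + l)) ^ 2
        ≤ C * M * ((1 + M) * (1 + l)) ^ 2 * Real.log (2 + (1 + M) * (1 + l)) ^ 2 := by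
          gcongr
      _ = C / Real.log 2 * M * ((1 + M) * (1 + l)) ^ 2 *
            Real.log (2 + (1 + M) * (1 + l)) ^ 2 * Real.log 2 := by
          field_simp
  · rw [← hcH]
    refine lt_of_le_of_lt (le_of_eq ?_) hH2
    rw [Nat.card_eq_fintype_card, Fintype.card_subtype]
    congr 2
    ext w
    simp only [mem_filter, hWH]
  · intro hγα w hw
    refine hH3 ?_ w ((hWH w).1 hw)
    rw [le_div_iff₀ (by rw [hcard]; positivity), hcard]
    exact (mul_le_mul_of_nonneg_right hγα (by positivity)).trans hAα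

end PT
end
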